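import Pool.Agent.Lib_helper30.BN.Main

/-!
# MP_0ca7b7_co: graphs of simple treewidth at most `k` have bend number at most `2k - 3` (`k ≥ 8`)

The notions of the problem are defined in `Pool.Agent.Lib_helper32.EPG.Top`: grid paths
(`IsGridPath`: lists of at least two points of `ℤ²`, consecutive ones joined by a unit edge, no point
repeated), bends, EPG representations (`IsEPG`), `BendLE G b` (the bend number of `G` is at most `b`),
simple `k`-trees (`IsSimpleKTree`) and `StwLE k G` (`G` is a subgraph of a simple `k`-tree).
-/

set_option autoImplicit false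

namespace Pool.Agent.Results.MP_0ca7b7_co.UpperHalfFromEight

open Pool.Agent.EPG

/-- The simple treewidth of `G`, i.e. the least `k'` such that `G` is a (not necessarily induced)
subgraph of a simple `k'`-tree, is at most `k`. -/
def SimpleTreewidthLE {V : Type} (G : SimpleGraph V) (k : ℕ) : Prop := ∃ k' ≤ k, StwLE k' G

/-- `B(k) ≤ 2k - 3` for every `k ≥ 8`: every graph of simple treewidth at most `k` has an EPG
representation by simple grid paths with at most `2k - 3` bends each. -/
theorem result (k : ℕ) (hk : 8 ≤ k) {V : Type} (G : SimpleGraph V) (h : SimpleTreewidthLE G k) :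
    BendLE G (2 * k - 3) := by
  obtain ⟨k', hk', h'⟩ := h
  exact Pool.Agent.BN.main k hk G k' hk' h'

end Pool.Agent.Results.MP_0ca7b7_co.UpperHalfFromEight
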